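import Mathlib
import Pool.Agent.R627.IrrCoset

/-!
# A faithful irreducible coset space with an abelian minimal closed normal subgroup and another
closed normal subgroup meeting it trivially
-/

set_option autoImplicit false

namespace Pool.Agent.Results.MP_fae9ec_al.DisjointNormal

open Pool.Agent.R627.CosetDefs Pool.Agent.R627.IrrCoset

/-- There are a Hausdorff topological group `G`, a subgroup `H` such that `G/H` is a faithful
irreducible coset space, an abelian minimal closed normal subgroup `M` of `G` and a nontrivial
closed normal subgroup `N` of `G` with `M ∩ N = 1`. -/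
theorem result : ∃ (G : Type) (_ : Group G) (_ : TopologicalSpace G) (_ : IsTopologicalGroup G)
    (_ : T2Space G) (H M N : Subgroup G),
    IrreducibleCoset H ∧ FaithfulCoset H ∧
    MinClosedNormal M ∧ (∀ x ∈ M, ∀ y ∈ M, x * y = y * x) ∧
    N.Normal ∧ IsClosed (N : Set G) ∧ N ≠ ⊥ ∧ M ⊓ N = ⊥ := by
  obtain ⟨P⟩ := exists_par
  exact ⟨G P, inferInstance, inferInstance, inferInstance, inferInstance, H P, V P 0, V P 1,
    irreducible P, faithful P, minimal P 0, fun x hx y hy => V_comm 0 hx hy, V_normal 1,
    isClosed_V 1, V_ne_bot 1, V_inf (by norm_num)⟩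

end Pool.Agent.Results.MP_fae9ec_al.DisjointNormal
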